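import Mathlib
import Pool.Agent.U73.LC.Stm
import Pool.Agent.U73.LS.All
import Pool.Agent.N945.SZ_PERA

set_option autoImplicit false

/-!
# Package PER of the project LC of helper73 (semistable curves ordered by the conductor), helper109
-/

namespace Pool.Agent.U109.LC

open Finset
open Pool.Agent.U73.LR Pool.Agent.U73.LS Pool.Agent.U73.LC

/-- two classes modulo an odd prime power -/
theorem cls_odd {p : ℕ} (hp : p.Prime) (h2 : p ≠ 2) {k : ℕ} {a b b' : ℤ} (hb : ¬ (p : ℤ) ∣ b)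
    (h1 : (p : ℤ) ^ k ∣ a ^ 3 - b ^ 2) (h1' : (p : ℤ) ^ k ∣ a ^ 3 - b' ^ 2) :
    (p : ℤ) ^ k ∣ b - b' ∨ (p : ℤ) ^ k ∣ b + b' := by
  have hpZ : Prime (p : ℤ) := Nat.prime_iff_prime_int.mp hp
  have h4 : (p : ℤ) ^ k ∣ (b - b') * (b + b') := by
    have := dvd_sub h1' h1
    have e : a ^ 3 - b' ^ 2 - (a ^ 3 - b ^ 2) = (b - b') * (b + b') := by ring
    rwa [e] at this
  by_cases h9 : (p : ℤ) ∣ b - b'
  · have h10 : ¬ (p : ℤ) ∣ b + b' := by
      intro h10
      have h11 : (p : ℤ) ∣ 2 * b := by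
        have := dvd_add h9 h10
        have e : b - b' + (b + b') = 2 * b := by ring
        rwa [e] at this
      rcases hpZ.dvd_or_dvd h11 with h12 | h12
      · have h13 : p ∣ 2 := by exact_mod_cast h12
        exact h2 ((Nat.prime_dvd_prime_iff_eq hp Nat.prime_two).1 h13)
      · exact hb h12
    left
    have : IsCoprime ((p : ℤ) ^ k) (b + b') := by
      apply IsCoprime.pow_left
      exact (hpZ.coprime_iff_not_dvd).mpr h10
    exact this.dvd_of_dvd_mul_right h4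
  · right
    have : IsCoprime ((p : ℤ) ^ k) (b - b') := by
      apply IsCoprime.pow_left
      exact (hpZ.coprime_iff_not_dvd).mpr h9
    exact this.dvd_of_dvd_mul_left h4

/-- one class modulo a power of 2 -/
theorem cls_two {k : ℕ} {a b b' : ℤ} (hb : b % 4 = 3) (hb' : b' % 4 = 3)
    (h1 : (2 : ℤ) ^ (k + 1) ∣ a ^ 3 - b ^ 2) (h1' : (2 : ℤ) ^ (k + 1) ∣ a ^ 3 - b' ^ 2) :
    (2 : ℤ) ^ k ∣ b - b' := by
  have h4 : (2 : ℤ) ^ (k + 1) ∣ (b - b') * (b + b') := by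
    have := dvd_sub h1' h1
    have e : a ^ 3 - b' ^ 2 - (a ^ 3 - b ^ 2) = (b - b') * (b + b') := by ring
    rwa [e] at this
  obtain ⟨c, hc⟩ : ∃ c, b + b' = 2 * (2 * c + 1) := ⟨(b + b' - 2) / 4, by omega⟩
  rw [hc] at h4
  have h5 : (2 : ℤ) ^ k ∣ (b - b') * (2 * c + 1) := by
    have e1 : (2 : ℤ) ^ (k + 1) = 2 * 2 ^ k := by ring
    have e2 : (b - b') * (2 * (2 * c + 1)) = 2 * ((b - b') * (2 * c + 1)) := by ring
    rw [e1, e2] at h4
    exact (mul_dvd_mul_iff_left (by norm_num)).mp h4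
  have h6 : IsCoprime ((2 : ℤ) ^ k) (2 * c + 1) := by
    apply IsCoprime.pow_left
    exact ⟨-c, 1, by ring⟩
  exact h6.dvd_of_dvd_mul_right h5

/-- the odd case at 2 -/
theorem two_odd {a b : ℤ} (h : K2 a b) (h8 : (2 : ℤ) ^ 8 ∣ a ^ 3 - b ^ 2) : b % 4 = 3 := by
  rcases h with ⟨-, h, -⟩ | ⟨⟨u, hu⟩, h⟩
  · exact h
  · exfalso
    obtain ⟨k, hk⟩ : ∃ k, b = 32 * k + 8 := ⟨b / 32, by omega⟩
    obtain ⟨v, hv⟩ := h8
    rw [hu, hk] at hv
    have : 64 * (64 * u ^ 3 - 16 * k ^ 2 - 8 * k - 1) = 64 * (4 * v) := by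
      linear_combination hv
    omega

/-- the case prime to 3 at 3 -/
theorem three_odd {a b : ℤ} (h : K3 a b) (h8 : (3 : ℤ) ^ 5 ∣ a ^ 3 - b ^ 2) : ¬ (3 : ℤ) ∣ b := by
  rcases h with ⟨h, -⟩ | ⟨⟨u, hu⟩, h9, ⟨v, hv⟩⟩
  · intro hb
    apply h
    have h1 : (3 : ℤ) ∣ a ^ 3 := by
      have h2 : (3 : ℤ) ∣ a ^ 3 - b ^ 2 := (Dvd.intro_left ((3 : ℤ) ^ 4) (by norm_num)).trans h8
      have h3 : (3 : ℤ) ∣ b ^ 2 := dvd_pow hb (by norm_num)
      have := dvd_add h2 h3
      simpa using this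
    exact Int.prime_three.dvd_of_dvd_pow h1
  · exfalso
    obtain ⟨w, hw⟩ := h8
    rw [hu, hv] at hw
    have h1 : u ^ 3 = 3 * (3 * w + 9 * v ^ 2) := by
      have : 27 * u ^ 3 = 27 * (3 * (3 * w + 9 * v ^ 2)) := by linear_combination hw
      linarith
    obtain ⟨x, hx⟩ := Int.prime_three.dvd_of_dvd_pow (Dvd.intro _ h1.symm)
    apply h9
    exact ⟨x, by rw [hu, hx]; ring⟩

theorem cls {n : ℕ} (hn : n ≠ 0) {a b b' : ℤ} (h : Sm a b) (h' : Sm a b') (hd : n ∣ rs a b)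
    (hd' : n ∣ rs a b') : ∀ p ∈ n.primeFactors,
      (p : ℤ) ^ (n.factorization p + 1) ∣ b - b' ∨ (p : ℤ) ^ (n.factorization p + 1) ∣ b + b' := by
  intro p hp
  have hpp := Nat.prime_of_mem_primeFactors hp
  obtain ⟨g, hg⟩ : ∃ g, g = n.factorization p := ⟨_, rfl⟩
  rw [← hg]
  have hg1 : 1 ≤ g := by
    rw [hg]
    exact hpp.factorization_pos_of_dvd hn (Nat.dvd_of_mem_primeFactors hp)
  have hpg : p ^ g ∣ n := by rw [hg]; exact Nat.ordProj_dvd n p
  have f := (fact.2 a b h p hpp g).1 (hpg.trans hd)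
  have f' := (fact.2 a b' h' p hpp g).1 (hpg.trans hd')
  obtain ⟨s, f1⟩ := f
  obtain ⟨s', f1'⟩ := f'
  replace f1 := f1.resolve_left (by omega)
  replace f1' := f1'.resolve_left (by omega)
  unfold Sp at s s'
  unfold ee at f1 f1'
  split_ifs at s s' f1 f1' with e2 e3
  · subst e2
    push_cast at f1 f1' ⊢
    left
    have o : b % 4 = 3 := two_odd s ((pow_dvd_pow _ (by omega)).trans f1)
    have o' : b' % 4 = 3 := two_odd s' ((pow_dvd_pow _ (by omega)).trans f1')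
    exact cls_two o o' ((pow_dvd_pow _ (by omega)).trans f1) ((pow_dvd_pow _ (by omega)).trans f1')
  · subst e3
    push_cast at f1 f1' ⊢
    have o := three_odd s ((pow_dvd_pow _ (by omega)).trans f1)
    have := cls_odd (p := 3) (k := g + 1) (a := a) (b := b) (b' := b') Nat.prime_three (by norm_num)
      (by exact_mod_cast o) (by push_cast; exact (pow_dvd_pow _ (by omega)).trans f1)
      (by push_cast; exact (pow_dvd_pow _ (by omega)).trans f1')
    exact_mod_cast this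
  · rw [add_zero] at f1 f1'
    refine cls_odd hpp e2 ?_ f1 f1'
    intro hb
    apply s
    refine ⟨?_, hb⟩
    have hpZ : Prime (p : ℤ) := Nat.prime_iff_prime_int.mp hpp
    have h1 : (p : ℤ) ∣ a ^ 3 := by
      have h2 : (p : ℤ) ∣ a ^ 3 - b ^ 2 := (dvd_pow_self _ (by omega)).trans f1
      have h3 : (p : ℤ) ∣ b ^ 2 := dvd_pow hb (by norm_num)
      have := dvd_add h2 h3
      simpa using this
    exact hpZ.dvd_of_dvd_pow h1

theorem t_PER : S_PER := by
  classical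
  refine ⟨3000, by norm_num, fun Z T n hZ hT hn => ?_⟩
  have hn0 : n ≠ 0 := by omega
  set P := n.primeFactors with hP
  have hPp : ∀ p ∈ P, p.Prime := fun p hp => Nat.prime_of_mem_primeFactors hp
  set κ : ℕ → ℕ := fun p => n.factorization p + 1 with hκ
  set K : ℕ := ∏ p ∈ P, p ^ κ p with hK
  have hK1 : 1 ≤ K := Finset.prod_pos (fun p hp => pow_pos (hPp p hp).pos _)
  have hKe : (K : ℝ) = (n : ℝ) * ∏ p ∈ P, (p : ℝ) := by
    have e1 : K = n * ∏ p ∈ P, p := by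
      have e2 : (∏ p ∈ P, p ^ n.factorization p) = n := by
        rw [hP]
        exact Nat.prod_factorization_pow_eq_self hn0
      calc K = ∏ p ∈ P, (p ^ n.factorization p * p) := by
            rw [hK]
            exact Finset.prod_congr rfl fun p _ => by rw [hκ]; ring
        _ = (∏ p ∈ P, p ^ n.factorization p) * ∏ p ∈ P, p := Finset.prod_mul_distrib
        _ = n * ∏ p ∈ P, p := by rw [e2]
    rw [e1]; push_cast; rfl
  rw [← hKe]
  have hK0 : (0 : ℝ) < K := by exact_mod_cast hK1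
  set Q : ℤ → ℤ → Prop := fun a b => Sm a b ∧ |(a : ℝ) ^ 3 - (b : ℝ) ^ 2| ≤ T ^ 6 ∧ n ∣ rs a b with hQ
  rw [cnt_def]
  set F : Finset (ℤ × ℤ) := (Pool.Agent.U73.LR.box Z).filter (fun q => Q q.1 q.2) with hF
  have hFm : ∀ x ∈ F, |(x.1 : ℝ)| ≤ Z ^ 2 ∧ Q x.1 x.2 := by
    intro x hx
    rw [hF, Finset.mem_filter] at hx
    refine ⟨?_, hx.2⟩
    have h1 := hx.1
    unfold Pool.Agent.U73.LR.box at h1
    rw [Finset.mem_product, Finset.mem_Icc] at h1
    have h2 := Int.floor_le (Z ^ 2)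
    have h3 : (x.1 : ℝ) ≤ (⌊Z ^ 2⌋ : ℝ) := by exact_mod_cast h1.1.2
    have h4 : -(⌊Z ^ 2⌋ : ℝ) ≤ (x.1 : ℝ) := by exact_mod_cast h1.1.1
    rw [abs_le]
    constructor <;> linarith
  -- the classes in one slice
  have hsl : ∀ (a : ℤ) (B : Finset ℤ), (∀ b ∈ B, (a, b) ∈ F) → ∀ u L : ℝ, 0 ≤ L →
      (∀ b ∈ B, u ≤ (b : ℝ) ∧ (b : ℝ) ≤ u + L) → (B.card : ℝ) ≤ 2 ^ P.card * (L / K + 1) := by
    intro a B hB u L hL hu
    refine Pool.Agent.N945.SZ.cl P hPp κ B ?_ u L hL hu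
    intro b hb b' hb' p hp
    have h1 := (hFm _ (hB b hb)).2
    have h2 := (hFm _ (hB b' hb')).2
    exact cls hn0 h1.1 h2.1 h1.2.2 h2.2.2 p hp
  -- the part with `a ≠ 0`
  have hinj : Function.Injective (fun x : ℤ × ℤ => ((3 * x.1, 2 * x.2) : ℤ × ℤ)) := by
    intro x y hxy
    simp only [Prod.mk.injEq] at hxy
    exact Prod.ext (by omega) (by omega)
  set F1 := (F.filter (fun x => x.1 ≠ 0)).image (fun x : ℤ × ℤ => ((3 * x.1, 2 * x.2) : ℤ × ℤ)) with hF1
  have hT6 : 1 ≤ T ^ 6 := one_le_pow₀ hT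
  have hr := Pool.Agent.N945.SZ.rega (√3 * Z) (108 * T ^ 6) (by
      have : (1 : ℝ) ≤ √3 := by
        rw [Real.one_le_sqrt]; norm_num
      nlinarith) (by linarith) 1 K P.card le_rfl hK1 F1 (by
      intro y hy
      rw [hF1, Finset.mem_image] at hy
      obtain ⟨x, hx, rfl⟩ := hy
      rw [Finset.mem_filter] at hx
      obtain ⟨h1, h2⟩ := hFm x hx.1
      refine ⟨?_, ?_, ?_, ?_⟩
      · have := hx.2
        show 3 * x.1 ≠ 0
        omega
      · show |((3 * x.1 : ℤ) : ℝ)| ≤ _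
        push_cast
        rw [abs_mul, abs_of_pos (by norm_num : (0 : ℝ) < 3), mul_pow, Real.sq_sqrt (by norm_num)]
        linarith
      · show |((Pool.Agent.N906.SZ.Dd (3 * x.1) (2 * x.2) : ℤ) : ℝ)| ≤ _
        unfold Pool.Agent.N906.SZ.Dd
        push_cast
        have e : 4 * (3 * (x.1 : ℝ)) ^ 3 - 27 * (2 * (x.2 : ℝ)) ^ 2 =
          108 * ((x.1 : ℝ) ^ 3 - (x.2 : ℝ) ^ 2) := by ring
        rw [e, abs_mul, abs_of_pos (by norm_num : (0 : ℝ) < 108)]
        have := h2.2.1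
        linarith
      · exact one_dvd _) (by
      intro a B hB u L hL hu
      rcases B.eq_empty_or_nonempty with rfl | ⟨b₀, hb₀⟩
      · simp; positivity
      have hm : ∀ b ∈ B, ∃ x ∈ F, 3 * x.1 = a ∧ 2 * x.2 = b := by
        intro b hb
        have := hB b hb
        rw [hF1, Finset.mem_image] at this
        obtain ⟨x, hx, hxe⟩ := this
        rw [Finset.mem_filter] at hx
        simp only [Prod.mk.injEq] at hxe
        exact ⟨x, hx.1, hxe⟩
      obtain ⟨x₀, hx₀, ha₀, -⟩ := hm b₀ hb₀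
      have hcard : (B.image (fun b => b / 2)).card = B.card := by
        apply Finset.card_image_of_injOn
        intro b hb b' hb' hbb
        obtain ⟨x, -, -, h1⟩ := hm b hb
        obtain ⟨x', -, -, h1'⟩ := hm b' hb'
        simp only at hbb
        omega
      rw [← hcard]
      have hB' : ∀ c ∈ B.image (fun b => b / 2), 2 * c ∈ B ∧ (x₀.1, c) ∈ F := by
        intro c hc
        obtain ⟨b, hb, rfl⟩ := Finset.mem_image.1 hc
        obtain ⟨x, hx, h1, h2⟩ := hm b hb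
        have e1 : 2 * (b / 2) = b := by omega
        refine ⟨by rw [e1]; exact hb, ?_⟩
        have e2 : (x₀.1, b / 2) = x := by
          apply Prod.ext
          · show x₀.1 = x.1
            omega
          · show b / 2 = x.2
            omega
        rw [e2]; exact hx
      refine (hsl x₀.1 _ (fun c hc => (hB' c hc).2) (u / 2) (L / 2) (by linarith) ?_).trans ?_
      · intro c hc
        have := hu _ (hB' c hc).1
        push_cast at this
        constructor <;> linarith [this.1, this.2]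
      · have : L / 2 / K ≤ L / K := by
          gcongr
          linarith
        gcongr)
  have hc1 : F1.card = (F.filter (fun x => x.1 ≠ 0)).card := Finset.card_image_of_injective _ hinj
  rw [hc1] at hr
  -- the part with `a = 0`
  have hc0 : ((F.filter (fun x => ¬ x.1 ≠ 0)).card : ℝ) ≤ 2 ^ P.card * (2 * T ^ 3 / K + 1) := by
    have hcard : ((F.filter (fun x => ¬ x.1 ≠ 0)).image Prod.snd).card =
        (F.filter (fun x => ¬ x.1 ≠ 0)).card := by
      apply Finset.card_image_of_injOn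
      intro x hx y hy hxy
      rw [Finset.mem_coe, Finset.mem_filter] at hx hy
      exact Prod.ext (by have h1 := hx.2; have h2 := hy.2; omega) hxy
    rw [← hcard]
    have hm : ∀ b ∈ (F.filter (fun x => ¬ x.1 ≠ 0)).image Prod.snd, ((0 : ℤ), b) ∈ F := by
      intro b hb
      obtain ⟨x, hx, rfl⟩ := Finset.mem_image.1 hb
      rw [Finset.mem_filter] at hx
      have : ((0 : ℤ), x.2) = x := Prod.ext (by have := hx.2; show 0 = x.1; omega) rfl
      rw [this]; exact hx.1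
    refine hsl 0 _ hm (-T ^ 3) (2 * T ^ 3) (by positivity) ?_
    intro b hb
    have h1 := (hFm _ (hm b hb)).2.2.1
    simp only [Int.cast_zero] at h1
    have h2 : (b : ℝ) ^ 2 ≤ (T ^ 3) ^ 2 := by
      have e : (0 : ℝ) ^ 3 - (b : ℝ) ^ 2 = -((b : ℝ) ^ 2) := by ring
      rw [e, abs_neg, abs_of_nonneg (sq_nonneg _)] at h1
      calc (b : ℝ) ^ 2 ≤ T ^ 6 := h1
        _ = _ := by ring
    have h3 := abs_le_of_sq_le_sq' h2 (by positivity)
    constructor <;> linarith [h3.1, h3.2]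
  have hsplit := (Finset.card_filter_add_card_filter_not (s := F) (fun x : ℤ × ℤ => x.1 ≠ 0))
  have hsplit' : (F.card : ℝ) = ((F.filter (fun x => x.1 ≠ 0)).card : ℝ) +
      ((F.filter (fun x => ¬ x.1 ≠ 0)).card : ℝ) := by exact_mod_cast hsplit.symm
  rw [hsplit']
  have hpow : (108 * T ^ 6) ^ (5 / 6 : ℝ) ≤ 108 * T ^ 5 := by
    have hT0 : 0 ≤ T := by linarith
    rw [Real.mul_rpow (by norm_num) (by positivity)]
    have e1 : (T ^ 6) ^ (5 / 6 : ℝ) = T ^ 5 := by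
      rw [← Real.rpow_natCast, ← Real.rpow_mul hT0, ← Real.rpow_natCast]
      norm_num
    rw [e1]
    have e2 : (108 : ℝ) ^ (5 / 6 : ℝ) ≤ 108 ^ (1 : ℝ) :=
      Real.rpow_le_rpow_of_exponent_le (by norm_num) (by norm_num)
    rw [Real.rpow_one] at e2
    gcongr
  have hT35 : T ^ 3 ≤ T ^ 5 := pow_le_pow_right₀ hT (by norm_num)
  have hZ2 : 1 ≤ Z ^ 2 := one_le_pow₀ hZ
  have g1 : (108 * T ^ 6) ^ (5 / 6 : ℝ) / K ≤ 108 * (T ^ 5 / K) := by
    rw [← mul_div_assoc]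
    gcongr
  have g2 : 2 * T ^ 3 / K ≤ 2 * (T ^ 5 / K) := by
    rw [← mul_div_assoc]
    gcongr
  have g3 : (√3 * Z) ^ 2 = 3 * Z ^ 2 := by
    rw [mul_pow, Real.sq_sqrt (by norm_num)]
  rw [g3] at hr
  have e4 : ((1 : ℕ) : ℝ) * (K : ℝ) = K := by push_cast; ring
  rw [e4] at hr
  have hw : (0 : ℝ) < 2 ^ P.card := by positivity
  have hx0 : 0 ≤ T ^ 5 / (K : ℝ) := by positivity
  calc ((F.filter (fun x => x.1 ≠ 0)).card : ℝ) + ((F.filter (fun x => ¬ x.1 ≠ 0)).card : ℝ)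
      ≤ 24 * 2 ^ P.card * ((108 * T ^ 6) ^ (5 / 6 : ℝ) / K + 3 * Z ^ 2) +
        2 ^ P.card * (2 * T ^ 3 / K + 1) := add_le_add hr hc0
    _ = 2 ^ P.card * (24 * ((108 * T ^ 6) ^ (5 / 6 : ℝ) / K + 3 * Z ^ 2) + (2 * T ^ 3 / K + 1)) := by ring
    _ ≤ 2 ^ P.card * (3000 * (T ^ 5 / K + Z ^ 2)) := by
        apply mul_le_mul_of_nonneg_left _ hw.le
        nlinarith
    _ = 3000 * 2 ^ P.card * (T ^ 5 / K + Z ^ 2) := by ring

end Pool.Agent.U109.LC
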